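import Pool.Agent.H97.RM3

set_option autoImplicit false

namespace Pool.Agent.Results.MP_ecc80d_co.UpperLn

open Finset Pool.Agent.H97.RM

theorem wt {N T : ℕ} (hT : 1 ≤ T) {B : ℝ} (hB : 0 ≤ B)
    (h1 : 4 * ((T : ℝ) + 1) * (2 * T + 1) ≤ N - 1) (h2 : 8 * T * B ≤ N - 1)
    (U : Finset (Sym2 (Fin N))) (hU : (U.card : ℝ) = N * (N - 1) / 2) (e : Sym2 (Fin N))
    (he : rho N (2 * T) e ≤ T) :
    (rk (rho N (2 * T)) U e + cc (1 / (2 * T)) B U.card) / U.card ≤
      Real.exp (-(FF T (rho N (2 * T) e) - 2 / T)) := by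
  have : NeZero (2 * T) := ⟨by omega⟩
  have hr := rk_le N (2 * T) U e
  set i := rho N (2 * T) e
  have hT' : (1 : ℝ) ≤ T := by exact_mod_cast hT
  have hi : (i : ℝ) ≤ T := by exact_mod_cast he
  have hi0 : (0 : ℝ) ≤ i := by positivity
  have hn : (1 : ℝ) ≤ N - 1 := by nlinarith
  set m : ℝ := (U.card : ℝ) with hm
  have hm0 : 0 < m := by rw [hU]; nlinarith
  have hd : ((N / (2 * T) : ℕ) : ℝ) * (2 * T) ≤ N := by
    exact_mod_cast Nat.div_mul_le_self N (2 * T)
  have hr' : (rk (rho N (2 * T)) U e : ℝ) ≤ N * ((i + 1) * ((N / (2 * T) : ℕ) + 1)) := by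
    exact_mod_cast hr
  have hs : ((N : ℝ) - 1) / 2 ≤ Real.sqrt m := Real.le_sqrt_of_sq_le (by rw [hU]; nlinarith)
  have hs2 := Real.sq_sqrt hm0.le
  have b1 : (T : ℝ) * rk (rho N (2 * T)) U e ≤ (i + 1) * m + m / 4 := by
    have c1 : (T : ℝ) * rk (rho N (2 * T)) U e ≤ N * (i + 1) * (N + 2 * T) / 2 := by
      calc _ ≤ (T : ℝ) * (N * ((i + 1) * ((N / (2 * T) : ℕ) + 1))) := by gcongr
        _ = N * (i + 1) * (((N / (2 * T) : ℕ) : ℝ) * (2 * T) + 2 * T) / 2 := by ring
        _ ≤ _ := by gcongr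
    have c2 : (N : ℝ) * ((i + 1) * (2 * T + 1)) ≤ N * ((N - 1) / 4) := by
      gcongr; nlinarith
    rw [hU]; nlinarith
  have b2 : (T : ℝ) * (B * Real.sqrt m) ≤ m / 4 := by
    have := Real.sqrt_nonneg m
    nlinarith
  have b3 : (rk (rho N (2 * T)) U e + cc (1 / (2 * T)) B U.card) / m ≤ (i + 2) / T := by
    rw [div_le_div_iff₀ hm0 (by linarith)]
    unfold cc
    rw [← hm]
    have : (1 / (2 * (T : ℝ)) * m) * T = m / 2 := by field_simp
    nlinarith
  refine b3.trans ?_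
  rw [neg_sub, sub_eq_add_neg, Real.exp_add]
  calc ((i : ℝ) + 2) / T = (2 / T + 1) * ((i + 2) / (T + 2)) := by field_simp; ring
    _ ≤ _ := mul_le_mul (Real.add_one_le_exp _) (FF_exp he) (by positivity) (Real.exp_pos _).le

theorem one {N T q : ℕ} [Inhabited (Sym2 (Fin N))] (hT : 1 ≤ T) (hq : 1 ≤ q)
    (h1 : 4 * ((T : ℝ) + 1) * (2 * T + 1) ≤ N - 1) (h2 : 672 * (T : ℝ) ^ 2 * q ≤ N - 1)
    (Q : Finset (Fin N)) (hQ : Q.card = q) :
    Ex (bmin (rho N (2 * T))) (fun A => if ((Q ×ˢ Q).filter (fun z => z.1 < z.2)).image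
        (fun z => s(z.1, z.2)) ⊆ A then 1 else 0)
      (⊤ : SimpleGraph (Fin N)).edgeFinset.card ∅ (⊤ : SimpleGraph (Fin N)).edgeFinset ≤
      Real.exp (-(((q : ℝ) ^ 2 * (lam T - 2 / T) - q * FF T 0) / 2)) := by
  have : NeZero (2 * T) := ⟨by omega⟩
  have hT' : (1 : ℝ) ≤ T := by exact_mod_cast hT
  have hq' : (1 : ℝ) ≤ q := by exact_mod_cast hq
  set P := (Q ×ˢ Q).filter (fun z => z.1 < z.2) with hP
  set U := (⊤ : SimpleGraph (Fin N)).edgeFinset with hU
  have hUc : (U.card : ℝ) = N * (N - 1) / 2 := by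
    rw [hU, SimpleGraph.card_edgeFinset_top_eq_card_choose_two, Fintype.card_fin,
      Nat.cast_choose_two]
  have hS : ((P.image fun z => s(z.1, z.2)).card : ℝ) ≤ q ^ 2 := by
    have : (P.image fun z => s(z.1, z.2)).card ≤ q ^ 2 :=
      card_image_le.trans ((card_filter_le _ _).trans (by rw [card_product, hQ, sq]))
    exact_mod_cast this
  refine (key (rho N (2 * T)) (κ := 1 / (2 * T)) (B := 84 * T * q) (by positivity)
    (by rw [div_le_one (by positivity)]; linarith) (by nlinarith) _ ?_ _ _ _ le_rfl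
    (disjoint_empty_left _)).trans ?_
  · have : 1 / (2 * (T : ℝ)) * (84 * T * q) ^ 2 = 42 * (84 * T * q ^ 2) := by field_simp; ring
    rw [this]
    nlinarith [sq_nonneg (q : ℝ)]
  let c : Fin N → ZMod (2 * T) := fun x => ((x.val : ℕ) : ZMod (2 * T))
  unfold G
  rw [prod_image (by
    intro z hz w hw h
    simp only [hP, coe_filter, Set.mem_ofPred_eq] at hz hw
    rcases Sym2.eq_iff.1 h with h | h
    · exact Prod.ext h.1 h.2
    · have := hz.2; have := hw.2; grind)]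
  calc _ ≤ ∏ z ∈ P, Real.exp (-(FF T (D (c z.1) (c z.2)) - 2 / T)) := by
        refine prod_le_prod (fun z _ => ?_) (fun z hz => ?_)
        · split_ifs
          · exact div_nonneg (add_nonneg (by positivity)
              (cc_nonneg (by positivity) (by nlinarith) _)) (by positivity)
          · norm_num
          · norm_num
        · rw [if_pos (by simpa [hU] using (mem_filter.1 hz).2.ne)]
          exact wt hT (by positivity) h1 (by nlinarith) U hUc _ (D_le _ _)
    _ ≤ _ := by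
        rw [← Real.exp_sum, Real.exp_le_exp, sum_neg_distrib, neg_le_neg_iff]
        have a1 := pair_sum Q (fun x y => FF T (D (c x) (c y)) - 2 / T)
          (fun x y => by rw [D_comm])
        have a2 := FF_sum c Q
        have a3 : ∀ x, D (c x) (c x) = 0 := fun x => by simp [D]
        simp only [a3, sum_sub_distrib, sum_const, nsmul_eq_mul, hQ] at a1 a2 ⊢
        have : (0 : ℝ) ≤ q * (2 / T) := by positivity
        rw [← hP] at a1
        nlinarith

theorem result : ∀ ε : ℝ, 0 < ε → ∀ η : ℝ, 0 < η → ∃ N₀ : ℕ, ∀ N : ℕ, N₀ ≤ N →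
    ∃ β : Finset (Sym2 (Fin N)) → Finset (Sym2 (Fin N)) → Sym2 (Fin N), Legal β ∧
      ∀ q : ℕ, (2 + ε) * Real.log N ≤ q → prob N q β ≤ η := by
  intro ε hε η hη
  set r : ℝ := (1 + ε / 4) / (1 + ε / 2) with hr
  have hr1 : r < 1 := by rw [hr, div_lt_one (by positivity)]; linarith
  have hr0 : 0 < r := by positivity
  have hre : r * (1 + ε / 2) = 1 + ε / 4 := by rw [hr]; field_simp
  obtain ⟨T, hT, hl⟩ := ((Filter.eventually_ge_atTop 1).and
    (lam_lim.eventually (lt_mem_nhds hr1))).exists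
  have hT' : (1 : ℝ) ≤ T := by exact_mod_cast hT
  have hlog : Filter.Tendsto (fun N : ℕ => Real.log N) Filter.atTop Filter.atTop :=
    Real.tendsto_log_atTop.comp tendsto_natCast_atTop_atTop
  have hid : Filter.Tendsto (fun N : ℕ => (N : ℝ)) Filter.atTop Filter.atTop :=
    tendsto_natCast_atTop_atTop
  have hc : (0 : ℝ) < 1 / (1344 * T ^ 2 * (2 + ε)) := by positivity
  obtain ⟨N₀, hN₀⟩ := Filter.eventually_atTop.1
    ((hid.eventually (Real.isLittleO_log_id_atTop.def hc)).and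
    ((hid.eventually_ge_atTop (4 * ((T : ℝ) + 1) * (2 * T + 1) + 1)).and
    ((hid.eventually_ge_atTop (1344 * (T : ℝ) ^ 2 + 2)).and
    ((hlog.eventually_ge_atTop 1).and ((hlog.eventually_ge_atTop (-Real.log η)).and
    (hlog.eventually_ge_atTop ((FF T 0 / 2 + 1) / (ε / 4))))))))
  refine ⟨N₀, fun N hN => ?_⟩
  obtain ⟨n1, n2, n3, n4, n5, n6⟩ := hN₀ N hN
  have hN0 : (0 : ℝ) < N := by nlinarith
  have hN0' : 0 < N := by exact_mod_cast hN0
  have : Inhabited (Sym2 (Fin N)) := ⟨s(⟨0, hN0'⟩, ⟨0, hN0'⟩)⟩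
  refine ⟨bmin (rho N (2 * T)), fun A U h => (bmin_spec _ A U h).1, fun q' hq' => ?_⟩
  set L := Real.log N with hL
  set q := ⌈(2 + ε) * L⌉₊ with hq
  have q1 : (2 + ε) * L ≤ q := Nat.le_ceil _
  have q2 : (q : ℝ) ≤ (2 + ε) * L + 1 := (Nat.ceil_lt_add_one (by positivity)).le
  have q3 : q ≤ q' := Nat.ceil_le.2 hq'
  have q4 : (1 : ℝ) ≤ q := by nlinarith
  simp only [id, Real.norm_eq_abs] at n1
  rw [abs_of_nonneg (by linarith), abs_of_nonneg hN0.le, div_mul_eq_mul_div,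
    le_div_iff₀ (by positivity)] at n1
  rw [div_le_iff₀ (by positivity)] at n6
  unfold prob
  refine (Ex_le_sum _ _ (powersetCard q univ) (fun Q A => if ((Q ×ˢ Q).filter
    (fun z => z.1 < z.2)).image (fun z => s(z.1, z.2)) ⊆ A then 1 else 0) ?_ _ _ _).trans ?_
  · intro A
    split_ifs with h
    · obtain ⟨Q', h1, h2⟩ := h
      obtain ⟨Q, h3, h4⟩ := exists_subset_card_eq (s := Q') (n := q) (by omega)
      refine le_trans ?_ (single_le_sum (a := Q) (fun _ _ => by split_ifs <;> norm_num)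
        (by simp [h4]))
      rw [if_pos]
      intro e he
      obtain ⟨z, hz, rfl⟩ := mem_image.1 he
      simp only [mem_filter, mem_product] at hz
      exact h2 _ (h3 hz.1.1) _ (h3 hz.1.2) hz.2.ne
    · exact sum_nonneg fun _ _ => by split_ifs <;> norm_num
  refine (sum_le_sum fun Q hQ => one (q := q) hT (by exact_mod_cast q4) (by linarith)
    (by nlinarith [sq_nonneg (T : ℝ)]) Q (mem_powersetCard.1 hQ).2).trans ?_
  rw [sum_const, card_powersetCard, card_univ, Fintype.card_fin, nsmul_eq_mul]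
  have b1 : (N.choose q : ℝ) ≤ Real.exp (q * L) := by
    rw [Real.exp_nat_mul, hL, Real.exp_log hN0]
    exact_mod_cast Nat.choose_le_pow N q
  refine (mul_le_mul_of_nonneg_right b1 (Real.exp_pos _).le).trans ?_
  rw [← Real.exp_add, ← Real.exp_log hη, Real.exp_le_exp]
  have b2 : (1 + ε / 4) * L ≤ q * (lam T - 2 / T) / 2 := by
    have : (2 + ε) * L * r ≤ q * (lam T - 2 / T) :=
      mul_le_mul q1 hl.le hr0.le (by linarith)
    nlinarith
  have b3 : (q : ℝ) * (L - q * (lam T - 2 / T) / 2 + FF T 0 / 2) ≤ q * (-1) := by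
    gcongr; linarith
  nlinarith

end Pool.Agent.Results.MP_ecc80d_co.UpperLn
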